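import Pool.Agent.H72R3.NC.Main

/-!
# A transcendental vector field on `ℂ³` with a Zariski dense leaf whose Nevanlinna currents
charge `ℂ³`
-/

set_option autoImplicit false

namespace Pool.Agent.Results.MP_f94db8_an.ZariskiDenseLeaf

open Pool.Agent.H72R3.NC

/-- There are a holomorphic vector field `Z` on `ℂ³` which is not a holomorphic multiple of a
polynomial vector field, a leaf `L` of `Z` which is not contained in any proper algebraic subset of
`ℂ³`, a uniformization `φ : ℂ → L`, and a cluster point `T` of the Nevanlinna currents of `φ` which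
is not supported in the hyperplane at infinity. -/
theorem result :
    ∃ (Z : Aff 3 → Aff 3) (L : Set (Aff 3)) (φ : ℂ → Aff 3),
      IsHolomorphicField Z ∧
      ¬ IsHolomorphicMultipleOfPolynomial Z ∧
      IsLeafUniformizedBy Z L φ ∧
      IsZariskiDense L ∧
      ∃ T : (Hom 3 → Alt2 3) → ℂ, IsClusterPoint φ T ∧ ¬ SupportedAtInfinity T :=
  ⟨fld, Set.range curve, curve, differentiable_fld, not_multiple, isLeaf,
    fun P hP => zariski_dense P fun t => hP _ ⟨t, rfl⟩, exists_cluster⟩

end Pool.Agent.Results.MP_f94db8_an.ZariskiDenseLeaf
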